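import Pool.Agent.R834.Med.Graph

/-!
# The median eigenvalues of a graph of maximum degree `4` are at least `-√3`

The proof is by an auxiliary function. Put `pol x = 3 x^4 - 133 x^2 + 333 x + 448` and
`G = pol + 52 log|x^2-3| + 10 log|x+2| + 8 log|x^4-6x^2-x+7| + 10 log|x^3+x^2-2x-1|
  + 6 log|x^5-7x^3-2x^2+8x-1|`.
* Summed over the spectrum, `pol` is `≥ 0`: the trace of `A^4` is at least `∑ (2 d^2 - d)`, so the sum
  is at least `∑ 2 (4 - d) (56 - 3 d) ≥ 0`, where `d` runs over the degrees.
* Each logarithmic term, summed over the eigenvalues at which it is finite, is `≥ 0`, because a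
  nonzero resultant of integer polynomials is at least `1` in absolute value.
* `G < -700` on `[-4, -√3)` and `G < 699.9` on `[-√3, 4]`; eigenvalues at which one of the five
  polynomials vanishes come in full sets of conjugates and are treated by summing over conjugates
  (the five polynomials are irreducible with pairwise resultants `±1`).
So fewer than half of the eigenvalues are less than `-√3`.
-/

set_option autoImplicit false

namespace Pool.Agent.Results.MP_46d9e0_co.MedianDegreeFour

open Polynomial

/-- `lam 0 ≥ lam 1 ≥ ⋯ ≥ lam (n - 1)`, where `n` is the number of vertices of `G`, are the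
eigenvalues of the adjacency matrix of `G`, listed with multiplicity. -/
def IsSpectrum {V : Type*} [Fintype V] [DecidableEq V] (G : SimpleGraph V) [DecidableRel G.Adj]
    (lam : Fin (Fintype.card V) → ℝ) : Prop :=
  Antitone lam ∧ (G.adjMatrix ℝ).charpoly = ∏ i, (X - C (lam i))

/-- Let `G` be a finite simple graph on `n ≥ 1` vertices with maximum degree at most `4`. Its
eigenvalues can be listed as `lam 0 ≥ ⋯ ≥ lam (n - 1)`, and for every such listing both median
eigenvalues are at least `-√3`: these are the `h`-th and the `l`-th eigenvalue, where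
`h = ⌊(n + 1) / 2⌋` and `l = ⌈(n + 1) / 2⌉ = ⌊(n + 2) / 2⌋` (the `k`-th eigenvalue is
`lam (k - 1)`). -/
theorem result {V : Type*} [Fintype V] [DecidableEq V] [Nonempty V] (G : SimpleGraph V)
    [DecidableRel G.Adj] (hG : G.maxDegree ≤ 4) :
    (∃ lam : Fin (Fintype.card V) → ℝ, IsSpectrum G lam) ∧
      ∀ lam : Fin (Fintype.card V) → ℝ, IsSpectrum G lam →
        ∀ i : Fin (Fintype.card V),
          ((i : ℕ) + 1 = (Fintype.card V + 1) / 2 ∨ (i : ℕ) + 1 = (Fintype.card V + 2) / 2) →
          -√3 ≤ lam i := by
  have h4 : ∀ v, G.degree v ≤ 4 := fun v => (G.degree_le_maxDegree v).trans hG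
  refine ⟨?_, ?_⟩
  · obtain ⟨lam, h1, h2⟩ := Pool.Agent.R834.Med.exists_listing G
    exact ⟨lam, h1, h2⟩
  · rintro lam ⟨h1, h2⟩ i hi
    exact Pool.Agent.R834.Med.median_ge G h4 lam h1 h2 i (by omega)

end Pool.Agent.Results.MP_46d9e0_co.MedianDegreeFour
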